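import Pool.Agent.Q196.HI.NegProj
import Pool.Agent.Q196.HI.Quasi

/-!
# HoTT-injectivity and HoTT-projectivity are not determined by the `1`-topos of sets

Every simplicial set `D` has an `∞`-topos `P(D) = Fun(Dᵒᵖ, 𝒮)` of presheaves of spaces. We use the
following standard dictionary (Joyal, Lurie).

* The objects `X` of `P(D)` are the right fibrations `p : E ⟶ D` of simplicial sets, and the slice
  `P(D)/X` is `P(E)`; base change along `X ⟶ 1` is restriction along `p`.
* The `0`-truncated objects of `P(E)` are the presheaves of sets on the homotopy category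
  `ho E = SSet.hoFunctor.obj E`. The modules over the constant ring `k` are the presheaves of
  `k`-modules on `ho E`, and the internal hom is Mathlib's `presheafHom`. Effective epimorphisms
  between `0`-truncated objects are the epimorphisms of presheaves of sets.

So a presheaf `M` of `k`-modules on `ho D` is HoTT-injective in `P(D)` if and only if, for every
right fibration `p : E ⟶ D`, its restriction to `ho E` is internally injective, and similarly for
HoTT-projectivity.

For every field `k` we give an `∞`-category (quasi-category) `D` with a functor `r : D ⟶ Δ[1]` that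
induces an isomorphism of homotopy categories (so that `P(D)` and `P(Δ[1])` have the same
`0`-truncated objects), and `k`-modules `I`, `P` (the constant module `k` and the module
that is `k` at the vertex `0` and zero at the vertex `1`) such that

* `I` is HoTT-injective and `P` is HoTT-projective in `P(Δ[1])`;
* in `P(D)` the module `I` is internally injective but not HoTT-injective, and `P` is internally
  projective but not HoTT-projective.

(`D` has two objects `0`, `1`; the space of maps from `0` to `0` is a point, there is no map from
`1` to `0`, and the spaces of maps from `0` to `1` and from `1` to `1` are classifying spaces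
of the additive group of `k`. The reason why base change to the slice over the presheaf
represented by `1` destroys injectivity and projectivity is that `H¹(k, k) ≠ 0`.)
-/

set_option autoImplicit false

namespace Pool.Agent.Results.MP_9c2d05_gt.Counterexample

open CategoryTheory Simplicial Opposite

universe u v w w'

set_option backward.isDefEq.respectTransparency.types false in
set_option backward.defeqAttrib.useBackward true in
/-- For a map `i : A ⟶ B` of presheaves on `C` with values in a category `𝒜`, and a presheaf
`I`, the map `i^* : Hom(B, I) ⟶ Hom(A, I)` of internal homs. Here `presheafHom B I` is the presheaf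
of sets whose value at `c` is the set of maps between the restrictions of `B` and `I` to the slice
category `Over c`. -/
def precomp {C : Type u} [Category.{v} C] {𝒜 : Type w} [Category.{w'} 𝒜]
    {A B : Cᵒᵖ ⥤ 𝒜} (i : A ⟶ B) (I : Cᵒᵖ ⥤ 𝒜) :
    presheafHom B I ⟶ presheafHom A I where
  app U := ↾(fun φ => Functor.whiskerLeft (Over.forget U.unop).op i ≫ φ)
  naturality := by
    rintro ⟨X⟩ ⟨Y⟩ ⟨f⟩
    ext φ
    rfl

set_option backward.isDefEq.respectTransparency.types false in
set_option backward.defeqAttrib.useBackward true in
/-- For a map `p : B ⟶ A` of presheaves on `C` with values in a category `𝒜`, and a presheaf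
`P`, the map `p_* : Hom(P, B) ⟶ Hom(P, A)` of internal homs. -/
def postcomp {C : Type u} [Category.{v} C] {𝒜 : Type w} [Category.{w'} 𝒜]
    {B A : Cᵒᵖ ⥤ 𝒜} (p : B ⟶ A) (P : Cᵒᵖ ⥤ 𝒜) :
    presheafHom P B ⟶ presheafHom P A where
  app U := ↾(fun φ => φ ≫ Functor.whiskerLeft (Over.forget U.unop).op p)
  naturality := by
    rintro ⟨X⟩ ⟨Y⟩ ⟨f⟩
    ext φ
    rfl

/-- **Internal injectivity**: the presheaf `I` of `k`-modules on `C` (a module over the constant
ring `k` in the topos of presheaves of sets on `C`) is internally injective if for every
monomorphism `i : A ⟶ B` of presheaves of `k`-modules the map of internal homs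
`i^* : Hom(B, I) ⟶ Hom(A, I)` is an epimorphism of presheaves of sets. -/
def InternallyInjective (k : Type u) [Ring k] {C : Type u} [Category.{u} C]
    (I : Cᵒᵖ ⥤ ModuleCat.{u} k) : Prop :=
  ∀ ⦃A B : Cᵒᵖ ⥤ ModuleCat.{u} k⦄ (i : A ⟶ B) [Mono i], Epi (precomp i I)

/-- **Internal projectivity**: for every epimorphism `p : B ⟶ A` of presheaves of `k`-modules
the map of internal homs `p_* : Hom(P, B) ⟶ Hom(P, A)` is an epimorphism of presheaves of
sets. -/
def InternallyProjective (k : Type u) [Ring k] {C : Type u} [Category.{u} C]
    (P : Cᵒᵖ ⥤ ModuleCat.{u} k) : Prop :=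
  ∀ ⦃B A : Cᵒᵖ ⥤ ModuleCat.{u} k⦄ (p : B ⟶ A) [Epi p], Epi (postcomp p P)

/-- Right fibrations of simplicial sets: the right lifting property with respect to the horn
inclusions `Λ[n, i] ⟶ Δ[n]` with `0 < i ≤ n`. -/
def IsRightFibration {E D : SSet.{u}} (p : E ⟶ D) : Prop :=
  ∀ (n : ℕ) (i : Fin (n + 2)), 0 < i →
    HasLiftingProperty (Λ[n + 1, i] : (Δ[n + 1] : SSet.{u}).Subcomplex).ι p

/-- The restriction of a presheaf of `k`-modules along (the homotopy category of) a map of
simplicial sets. -/
abbrev restr {k : Type u} [Ring k] {E D : SSet.{u}} (p : E ⟶ D)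
    (M : (SSet.hoFunctor.obj D)ᵒᵖ ⥤ ModuleCat.{u} k) :
    (SSet.hoFunctor.obj E)ᵒᵖ ⥤ ModuleCat.{u} k :=
  (SSet.hoFunctor.map p).toFunctor.op ⋙ M

/-- **HoTT-injectivity** in the `∞`-topos `P(D)` of presheaves of spaces on `D`: the base change
to the slice over every object of `P(D)` (a right fibration `p : E ⟶ D`) is internally
injective. -/
def HoTTInjective (k : Type u) [Ring k] (D : SSet.{u})
    (M : (SSet.hoFunctor.obj D)ᵒᵖ ⥤ ModuleCat.{u} k) : Prop :=
  ∀ (E : SSet.{u}) (p : E ⟶ D), IsRightFibration p → InternallyInjective k (restr p M)

/-- **HoTT-projectivity** in the `∞`-topos `P(D)` of presheaves of spaces on `D`: the base change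
to the slice over every object of `P(D)` (a right fibration `p : E ⟶ D`) is internally
projective. -/
def HoTTProjective (k : Type u) [Ring k] (D : SSet.{u})
    (M : (SSet.hoFunctor.obj D)ᵒᵖ ⥤ ModuleCat.{u} k) : Prop :=
  ∀ (E : SSet.{u}) (p : E ⟶ D), IsRightFibration p → InternallyProjective k (restr p M)

/-- **The answer to Q1 and Q2 is no**, for injectivity and for projectivity, and over every field
`k`: the `∞`-toposes `P(Δ[1])` and `P(D)` have, via `r`, the same `0`-truncated objects; the module
`I` is HoTT-injective in the first but not in the second, where it is internally injective; and the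
module `P` is HoTT-projective in the first but not in the second, where it is internally
projective. -/
theorem result (k : Type u) [Field k] :
    ∃ (D : SSet.{u}) (r : D ⟶ Δ[1])
      (I P : (SSet.hoFunctor.obj (Δ[1] : SSet.{u}))ᵒᵖ ⥤ ModuleCat.{u} k),
      SSet.Quasicategory D ∧ IsIso (SSet.hoFunctor.map r) ∧
      HoTTInjective k Δ[1] I ∧
      InternallyInjective k (restr r I) ∧ ¬ HoTTInjective k D (restr r I) ∧
      HoTTProjective k Δ[1] P ∧
      InternallyProjective k (restr r P) ∧ ¬ HoTTProjective k D (restr r P) :=
  ⟨Pool.Agent.Q196.HI.DS k, Pool.Agent.Q196.HI.rD k,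
    Pool.Agent.Q196.HI.constMod k Δ[1], Pool.Agent.Q196.HI.P01 k,
    Pool.Agent.Q196.HI.quasicategory_DS k, Pool.Agent.Q196.HI.isIso_ho_r k,
    Pool.Agent.Q196.HI.hott_interval k,
    Pool.Agent.Q196.HI.internallyInjective_D k, Pool.Agent.Q196.HI.not_hott_D k,
    Pool.Agent.Q196.HI.hottProj_interval k,
    Pool.Agent.Q196.HI.internallyProjective_D k, Pool.Agent.Q196.HI.not_hottProj_D k⟩

end Pool.Agent.Results.MP_9c2d05_gt.Counterexample
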